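import Pool.Agent.H76.GH.Targets

/-!
Board gh, row ITR: the iteration of the convolutions.
-/

set_option autoImplicit false

open MeasureTheory Pool.Agent.H34.GM Pool.Agent.H34.GZ Pool.Agent.H34.GU Pool.Agent.H34.GA
open Pool.Agent.H23.GB

namespace Pool.Agent.H86.GH

open Pool.Agent.H76.GH

theorem pf_ITR (hCHI : T_CHI) (hCVA : T_CVA) (hCVB : T_CVB) (hCVW : T_CVW) (hCVF : T_CVF) :
    T_ITR := by
  obtain ⟨c, hc, hχ⟩ := hCHI
  refine ⟨c, hc, ?_⟩
  intro m K q hm hK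
  induction q with
  | zero =>
    refine ⟨1, le_rfl, ?_⟩
    intro a N d M B r0 lam ψ ψ' hN hd hM hr0 hW hψ' hs hb hB hF
    refine ⟨ψ, ψ', fun _ => 1, hW, hψ', ?_, ?_, hF, ?_, ?_, ?_⟩
    · simpa using hs
    · simpa using hb
    · intro t; simp
    · intro t; simp
    · intro t
      simp
  | succ q ih =>
    obtain ⟨D, hD, hI⟩ := ih
    have hA0 : (0 : ℝ) < Real.exp ((m : ℝ) / 2) := Real.exp_pos _
    have hf1 : (1 : ℝ) ≤ 2 * Real.exp ((m : ℝ) / 2) * Real.exp ((m : ℝ) + K) := by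
      have h1 : (1 : ℝ) ≤ Real.exp ((m : ℝ) / 2) := Real.one_le_exp (by positivity)
      have h2 : (1 : ℝ) ≤ Real.exp ((m : ℝ) + K) := Real.one_le_exp (by positivity)
      nlinarith [mul_le_mul h1 h2 zero_le_one (by positivity)]
    refine ⟨2 * Real.exp ((m : ℝ) / 2) * Real.exp ((m : ℝ) + K) * D, ?_, ?_⟩
    · nlinarith
    intro a N d M B r0 lam ψ ψ' hN hd hM hr0 hW hψ' hs hb hB hF
    obtain ⟨φ, φ', ρ, hφW, hφ', hφs, hφb, hφF, hφM, hφM', hρ⟩ :=
      hI (fun i => a i.succ) N d M B r0 lam ψ ψ' hN hd hM hr0 hW hψ' hs hb hB hF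
    obtain ⟨hH, hHt⟩ := hχ m (a 0) hm
    have hDM : 0 ≤ D * M := mul_nonneg (by linarith) hM
    have hr1 : (1 : ℝ) ≤ 3 ^ q * r0 := by
      have h1 : (1 : ℝ) ≤ 3 ^ q := one_le_pow₀ (by norm_num)
      nlinarith
    obtain ⟨hA1, hA2, hA3⟩ := hCVA m _ _ hm hH φ (3 ^ q * r0) hr1 hφW.cont hφs
    obtain ⟨hB1, hB2, hB3⟩ := hCVB m K _ _ hm hK hH φ' (D * M) d hDM hd hφ' hφb
    refine ⟨cv m (ha m (a 0)) φ, cw m (ha m (a 0)) φ',
      fun t => ‖Lh m (ha m (a 0)) (1 / 2 + t * Complex.I)‖ * ρ t,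
      hCVW m _ _ hm hH φ lam hφW, hB1, ?_, ?_, ?_, ?_, ?_, ?_⟩
    · intro r hr h0
      have h1 := hA2 r hr h0
      rw [pow_succ]
      have h2 : (3 : ℝ) ^ q * 3 * r0 = 3 * (3 ^ q * r0) := by ring
      rw [h2]
      exact h1
    · intro r hr
      have h1 := hB2 r hr
      refine h1.trans (le_of_eq ?_)
      ring
    · exact hCVF m K _ _ hm hK hH N d (D * M) B (3 ^ q * r0) lam φ φ' hN hd hDM hr1 hφW.cont hφ'
        hφs hφb hB hφF
    · intro t
      rw [hA3, norm_mul, hφM t, mul_assoc]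
    · intro t
      rw [hB3 t, hφM' t, mul_assoc]
    · intro t
      obtain ⟨h0, h1, h2⟩ := hρ t
      obtain ⟨h3, h4⟩ := hHt t
      set w : ℝ := ‖(1 / 2 + t * Complex.I : ℂ) - a 0‖ with hw
      set l : ℝ := ‖Lh m (ha m (a 0)) (1 / 2 + t * Complex.I)‖ with hl
      have hw0 : 0 ≤ w := norm_nonneg _
      have hl0 : 0 ≤ l := norm_nonneg _
      have hmin0 : 0 ≤ min 1 w := le_min zero_le_one hw0
      set P : ℝ := ∏ i : Fin q, ‖(1 / 2 + t * Complex.I : ℂ) - a i.succ‖ with hP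
      set Q : ℝ := ∏ i : Fin q, min 1 ‖(1 / 2 + t * Complex.I : ℂ) - a i.succ‖ with hQ
      have hQ0 : 0 ≤ Q := Finset.prod_nonneg fun i _ => le_min zero_le_one (norm_nonneg _)
      have hP0 : 0 ≤ P := Finset.prod_nonneg fun i _ => norm_nonneg _
      refine ⟨mul_nonneg hl0 h0, ?_, ?_⟩
      · rw [Fin.prod_univ_succ, Fin.prod_univ_succ]
        calc c ^ (q + 1) * (min 1 w * Q) = (c * min 1 w) * (c ^ q * Q) := by ring
          _ ≤ (l * w) * (ρ t * P) := mul_le_mul h3 h1 (by positivity) (mul_nonneg hl0 hw0)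
          _ = l * ρ t * (w * P) := by ring
      · rw [Fin.prod_univ_succ]
        calc l * ρ t * (w * P) = (l * w) * (ρ t * P) := by ring
          _ ≤ 2 * 2 ^ q := mul_le_mul h4 h2 (mul_nonneg h0 hP0) (by norm_num)
          _ = 2 ^ (q + 1) := by ring

end Pool.Agent.H86.GH
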